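import Pool.Agent.H681.SX.Main

set_option autoImplicit false

/-!
# MP_39df77_nt: the sixth moment (and all higher even moments) with a fourth power at one point and generic shifts

Unconditionally, for almost all `c ∈ [0, T]`, the integral of `|ζ(1/2 + it)|⁴ |ζ(1/2 + i(t + c))|²` over `[0, T]` is
asymptotically `(1/12) A(c) |ζ(1 + ic)|⁴ T (log T)⁵` with an explicit Euler product `A(c)`. More generally, for every `n`,
`|ζ(1/2 + it)|⁴ ∏_{j ≤ n} |ζ(1/2 + i(t + c_j))|²` for almost all `c ∈ [0, T] ^ n`.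
-/

namespace Pool.Agent.Results.MP_39df77_nt.FourthPowerWithGenericShifts

open Complex Filter MeasureTheory

noncomputable section

variable {n : ℕ}

/-- The moment of order `2n + 4`: the fourth power of zeta at `1/2 + it`, times `n` squares at the points shifted by
`c_1, …, c_n`. -/
def moment (T : ℝ) (c : Fin n → ℝ) : ℝ :=
  ∫ t in (0:ℝ)..T, ‖riemannZeta (1 / 2 + I * t)‖ ^ 4 * ∏ j, ‖riemannZeta (1 / 2 + I * (t + c j))‖ ^ 2

/-- The local density at the prime `p`: `(1 - 1/p) ^ (n+4)` times the mean over the unit circle of the product of the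
powers of the absolute values of the Euler factors at `p` on the critical line, with the shifts. -/
def loc (c : Fin n → ℝ) (p : ℕ) : ℝ :=
  (1 - 1 / (p : ℝ)) ^ (n + 4) * ∫ θ in (0:ℝ)..1,
    1 / (‖1 - cexp (2 * Real.pi * I * θ) * (p : ℂ) ^ (-(1 / 2) : ℂ)‖ ^ 4 *
      ∏ j, ‖1 - cexp (2 * Real.pi * I * θ) * (p : ℂ) ^ (-(1 / 2 + I * c j))‖ ^ 2)

/-- The product of the local densities over the primes up to `y`. -/
def locProd (y : ℝ) (c : Fin n → ℝ) : ℝ :=
  ∏ p ∈ (Finset.range (⌊y⌋₊ + 1)).filter Nat.Prime, loc c p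

/-- The polar factor: `∏_j |ζ(1 + i c_j)|⁴ ∏_{i < j} |ζ(1 + i (c_i - c_j))|²`. -/
def polar (c : Fin n → ℝ) : ℝ :=
  (∏ j, ‖riemannZeta (1 + I * c j)‖ ^ 4) *
    ∏ i, ∏ j ∈ Finset.Ioi i, ‖riemannZeta (1 + I * (c i - c j))‖ ^ 2

/-- The inverse of the Euler factor of the polar factor at `p`. -/
def polarInv (c : Fin n → ℝ) (p : ℕ) : ℝ :=
  (∏ j, ‖1 - (p : ℂ) ^ (-(1 + I * c j))‖ ^ 4) *
    ∏ i, ∏ j ∈ Finset.Ioi i, ‖1 - (p : ℂ) ^ (-(1 + I * (c i - c j)))‖ ^ 2

/-- The arithmetic factor, a product over all primes with factors `1 + O(p⁻²)`. -/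
def arith (c : Fin n → ℝ) : ℝ := ∏' p : Nat.Primes, loc c p * polarInv c p

/-- **Moments with a fourth power at one point and generic shifts.** For every `n`:

* for every `ε > 0` and all large `T`, for all `c ∈ [0, T] ^ n` outside of a set of measure at most `ε T ^ n`, the moment
  is `(1 + O(ε))` times `(1/12) * arith c * polar c * T (log T) ^ (n + 4)`;
* in the mean over `c ∈ [0, T] ^ n`, the moment divided by `T (log T) ^ (n + 4)` is `1/12` times the product of the local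
  densities at the primes up to `log T`, with an error at most `ε`;
* the factors of the Euler product `arith c` are nonnegative and `1 + O(p⁻²)`, uniformly in `c`.

For `n = 1` this is a moment of order six, for `n = 2` of order eight. -/
theorem result (n : ℕ) :
    (∀ ε : ℝ, 0 < ε → ∃ T₀ : ℝ, ∀ T : ℝ, T₀ ≤ T →
      volume {c : Fin n → ℝ | (∀ j, c j ∈ Set.Icc 0 T) ∧
          ¬ |moment T c / (1 / 12 * arith c * polar c * (T * Real.log T ^ (n + 4))) - 1| ≤ ε} ≤
        ENNReal.ofReal (ε * T ^ n) ∧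
      IntegrableOn (fun c : Fin n → ℝ => |moment T c / (T * Real.log T ^ (n + 4)) -
          1 / 12 * locProd (Real.log T) c|) {c | ∀ j, c j ∈ Set.Icc 0 T} ∧
      ∫ c in {c : Fin n → ℝ | ∀ j, c j ∈ Set.Icc 0 T}, |moment T c / (T * Real.log T ^ (n + 4)) -
          1 / 12 * locProd (Real.log T) c| ≤ ε * T ^ n) ∧
    (∃ C : ℝ, ∀ c : Fin n → ℝ, ∀ p : ℕ, p.Prime →
      0 ≤ loc c p * polarInv c p ∧ |loc c p * polarInv c p - 1| ≤ C / (p : ℝ) ^ 2) := by
  have h := Pool.Agent.Y969.SM.res_gen Pool.Agent.H681.SX.hMAIN Pool.Agent.H681.SX.hREL Pool.Agent.H681.SX.hAA n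
  refine ⟨fun ε hε => ?_, ?_⟩
  · obtain ⟨T₀, hT₀⟩ := h.2 ε hε
    refine ⟨T₀, fun T hT => ?_⟩
    obtain ⟨q1, q2, q3⟩ := hT₀ T hT
    exact ⟨q3, q1, q2⟩
  · obtain ⟨C, _, hC⟩ := Pool.Agent.H681.SX.hAA n
    exact ⟨C, fun c p hp => (hC c).1 p hp⟩

end

end Pool.Agent.Results.MP_39df77_nt.FourthPowerWithGenericShifts
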