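import Pool.Agent.H481.TM5

/-!
# Which correlations determine the moments of the characteristic polynomial?

The asymptotics of the moments of the zeta function on the critical line are known exactly for the
second and the fourth moment, and all correlations of the zeros (of all levels) are known in the
range of Montgomery, Hejhal, Rudnick and Sarnak.  In the unitary model, with `N` points
`z_1, …, z_N` of the unit circle instead of the zeros, the correlations of range `R` are the means
`E[F(z) conj G(z)]` for the polynomials `F`, `G` of total degree at most `R`; the known range is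
`R = N`.  The moment of order `2 k` is
`M_k = E (2π)⁻¹ ∫_0^{2π} |∏_j (e^{iθ} - z_j)|^{2k} dθ`.

Suppose that all correlations of the range `R` are those of the eigenvalues of a Haar distributed
unitary `N × N` matrix.  We find for each `k` the exact range which is needed for the moment: it is
`k ⌊N/2⌋`.

* If `R ≥ k ⌊N/2⌋`, then `M_k` has the value of Keating and Snaith for the unitary group.
* If `R < k ⌊N/2⌋`, then `M_k` is not determined, it can be larger and smaller.

So (for `N ≥ 4`) all correlations in the known range `R = N` determine the second and the fourth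
moment and no higher one; for the sixth moment one needs the range `3 ⌊N/2⌋`.
-/

open MeasureTheory

namespace Pool.Agent.Results.MP_39df77_nt.MomentThreshold

/-- the mean of `f` over the eigenvalues `z = (e^{iθ_1}, …, e^{iθ_N})` of a Haar distributed
unitary `N × N` matrix (Weyl's formula):
`(N! (2π)^N)⁻¹ ∫_{(0, 2π]^N} f(z) ∏_{i < j} |z_j - z_i|² dθ` -/
noncomputable def haarMean (N : ℕ) (f : (Fin N → ℂ) → ℂ) : ℂ :=
  ((N.factorial : ℂ) * (2 * Real.pi) ^ N)⁻¹ *
    ∫ θ in Set.univ.pi fun _ : Fin N => Set.Ioc (0 : ℝ) (2 * Real.pi),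
      f (fun j => Complex.exp (Complex.I * θ j)) *
        ((∏ i : Fin N, ∏ j ∈ Finset.Ioi i,
          ‖Complex.exp (Complex.I * θ j) - Complex.exp (Complex.I * θ i)‖ ^ 2 : ℝ) : ℂ)

/-- `ν` is a law of `N` points on the unit circle with the correlations of range `R` of the
eigenvalues of a Haar distributed unitary `N × N` matrix: the means `E[F(z) conj G(z)]` are the
same, for all polynomials `F`, `G` of total degree at most `R` -/
structure Agrees (N R : ℕ) (ν : Measure (Fin N → ℂ)) : Prop where
  prob : IsProbabilityMeasure ν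
  unit : ∀ᵐ z ∂ν, ∀ i, ‖z i‖ = 1
  moments : ∀ F G : MvPolynomial (Fin N) ℂ, F.totalDegree ≤ R → G.totalDegree ≤ R →
    ∫ z, MvPolynomial.eval z F * (starRingEnd ℂ) (MvPolynomial.eval z G) ∂ν =
      haarMean N (fun z => MvPolynomial.eval z F * (starRingEnd ℂ) (MvPolynomial.eval z G))

/-- the mean of the `2k`-th power of the absolute value of the polynomial with the zeros `z_j` over
the unit circle: `(2π)⁻¹ ∫_0^{2π} |∏_j (e^{iθ} - z_j)|^{2k} dθ` -/
noncomputable def meanPower {N : ℕ} (k : ℕ) (z : Fin N → ℂ) : ℝ :=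
  (2 * Real.pi)⁻¹ * ∫ θ in Set.Ioc (0 : ℝ) (2 * Real.pi),
    ‖∏ j, (Complex.exp (Complex.I * θ) - z j)‖ ^ (2 * k)

/-- the `2k`-th moment of the characteristic polynomial for the law `ν` -/
noncomputable def moment {N : ℕ} (k : ℕ) (ν : Measure (Fin N → ℂ)) : ℝ := ∫ z, meanPower k z ∂ν

/-- the `2k`-th moment of the characteristic polynomial for the unitary group -/
noncomputable def haarMoment (N k : ℕ) : ℝ :=
  ((N.factorial : ℝ) * (2 * Real.pi) ^ N)⁻¹ *
    ∫ θ in Set.univ.pi fun _ : Fin N => Set.Ioc (0 : ℝ) (2 * Real.pi),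
      meanPower k (fun j => Complex.exp (Complex.I * θ j)) *
        ∏ i : Fin N, ∏ j ∈ Finset.Ioi i,
          ‖Complex.exp (Complex.I * θ j) - Complex.exp (Complex.I * θ i)‖ ^ 2

/-- **Theorem.** Let `N ≥ 1`, `k ≥ 0`, `R ≥ 0`.
(1) If `R ≥ k ⌊N/2⌋`, all laws with the correlations of range `R` have the `2k`-th moment of the
unitary group.
(2) If `R < k ⌊N/2⌋`, each number `y` at a distance of at most `1 / N!` from the moment for the
unitary group is the `2k`-th moment for a law with the correlations of range `R`.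
(3) In particular, for `N ≥ 4` the correlations of range `N` determine the `2k`-th moment if and
only if `k ≤ 2`. -/
theorem result (N : ℕ) (hN : 1 ≤ N) :
    (∀ k R : ℕ, k * (N / 2) ≤ R → ∀ ν : Measure (Fin N → ℂ), Agrees N R ν →
      moment k ν = haarMoment N k) ∧
    (∀ k R : ℕ, R < k * (N / 2) → ∀ y : ℝ, |y - haarMoment N k| ≤ 1 / (N.factorial : ℝ) →
      ∃ ν : Measure (Fin N → ℂ), Agrees N R ν ∧ moment k ν = y) ∧
    (4 ≤ N → ∀ k : ℕ, (∀ ν ν' : Measure (Fin N → ℂ), Agrees N N ν → Agrees N N ν' →
      moment k ν = moment k ν') ↔ k ≤ 2) := by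
  have hreal : ∀ k : ℕ, ((haarMoment N k : ℝ) : ℂ) =
      Pool.Agent.R319.UM.cue (N := N) (fun z => ((Pool.Agent.H481.TM.cm k z : ℝ) : ℂ)) := by
    intro k
    unfold Pool.Agent.R319.UM.cue haarMoment
    rw [Complex.ofReal_mul, ← integral_complex_ofReal]
    have hc : ((((N.factorial : ℝ) * (2 * Real.pi) ^ N)⁻¹ : ℝ) : ℂ) =
        ((N.factorial : ℂ) * (2 * Real.pi) ^ N)⁻¹ := by
      push_cast
      rfl
    rw [hc]
    congr 1
    refine integral_congr_ae (Filter.Eventually.of_forall fun θ => ?_)
    simp only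
    rw [Complex.ofReal_mul]
    rfl
  have part1 : ∀ k R : ℕ, k * (N / 2) ≤ R → ∀ ν : Measure (Fin N → ℂ), Agrees N R ν →
      moment k ν = haarMoment N k := by
    intro k R hR ν hν
    have := hν.prob
    have h := Pool.Agent.H481.TM.determined (k := k) hR hν.unit hν.moments
    rw [← hreal] at h
    exact_mod_cast h
  have part2 : ∀ k R : ℕ, R < k * (N / 2) → ∀ y : ℝ,
      |y - haarMoment N k| ≤ 1 / (N.factorial : ℝ) →
      ∃ ν : Measure (Fin N → ℂ), Agrees N R ν ∧ moment k ν = y := by
    intro k R hR y hy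
    have hre : (Pool.Agent.R319.UM.cue (N := N)
        (fun z => ((Pool.Agent.H481.TM.cm k z : ℝ) : ℂ))).re = haarMoment N k := by
      rw [← hreal, Complex.ofReal_re]
    obtain ⟨ν, a1, a2, a3, a4⟩ := Pool.Agent.H481.TM.undetermined (k := k) (R := R) (N := N)
      (by omega) hR (y := y) (by rw [hre]; exact hy)
    exact ⟨ν, ⟨a1, a2, a3⟩, a4⟩
  refine ⟨part1, part2, fun h4 k => ⟨fun h => ?_, fun h ν ν' hν hν' => ?_⟩⟩
  · by_contra hk
    have hlt : N < k * (N / 2) := by
      calc N < 3 * (N / 2) := by omega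
        _ ≤ k * (N / 2) := Nat.mul_le_mul_right _ (by omega)
    have hf : (0 : ℝ) < 1 / (N.factorial : ℝ) := by
      have : (0 : ℝ) < N.factorial := by exact_mod_cast N.factorial_pos
      positivity
    obtain ⟨ν, hν, e1⟩ := part2 k N hlt (haarMoment N k) (by rw [sub_self, abs_zero]; exact hf.le)
    obtain ⟨ν', hν', e2⟩ := part2 k N hlt (haarMoment N k + 1 / (N.factorial : ℝ))
      (by rw [add_sub_cancel_left, abs_of_pos hf])
    have := h ν ν' hν hν'
    rw [e1, e2] at this
    linarith
  · have hle : k * (N / 2) ≤ N := by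
      calc k * (N / 2) ≤ 2 * (N / 2) := Nat.mul_le_mul_right _ h
        _ ≤ N := by omega
    rw [part1 k N hle ν hν, part1 k N hle ν' hν']

end Pool.Agent.Results.MP_39df77_nt.MomentThreshold
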