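import Pool.Agent.H471.ZP.Sxt

set_option autoImplicit false

/-!
# MP_39df77_nt: the sixth moment, and all moments of order `4 + 2k`, with generic heights in all but one factor

For `j < k` let `0 < η_j ≤ θ_j ≤ D_j` be real, `m_j ≥ 0` integers, with `η_j < θ_j` or `m_j ≥ 1`, let `y_j ≥ 0` be ARBITRARY
measurable functions with `y_j(t) + t ^ {θ_j} ≍ t ^ {D_j}`, and put

`u_j(t) = y_j(t) + a_j t ^ {θ_j} + b_j t ^ {η_j} / (log t) ^ {m_j}`.

Let `Δ = ∑_j (D_j - θ_j) + 1 - e < 1/3`, where `e ≤ 1` and `e ≤ η_j` for all `j`. For almost all real `a_j > 0`, `b_j`: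

(1) `∫_{T_0}^T |ζ(1/2 + it)| ⁴ (∏_j |ζ(1/2 + i u_j(t))| ² - ∏_j (log(u_j(t) / 2π) + 2γ)) dt = O(T ^ (5/6 + Δ/2 + ε))`,
    a power saving;

(2) `∫_2^T |ζ(1/2 + it)| ⁴ ∏_j |ζ(1/2 + i u_j(t))| ² dt ~ (∏_j D_j / (2π²)) T (log T) ^ (4 + k)`.

Examples with `k = 1` (a sixth moment): the heights `u(t) = t + a t ^ θ + b t ^ θ / log t`, for every `θ > 5/6`, at a distance
`o(t)` from `t`; the heights `a t + b t / log t`, with the error term `O(T ^ (5/6 + ε))` in (1). For `k = 2`: the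
heights `t + a_j t ^ θ + b_j t ^ θ / log t` with `θ > 8/9`, an eighth moment.

Proof of (1): the theorem on generic heights with arbitrary weights of given mean square (see
`MP_07318d_nt.SquareRootGenericHeights`), here for heights with a power of `t` less than a full range of
parameters (`θ_j < D_j`), applied to the weight `|ζ(1/2 + it)| ⁴`, whose mean square is `O(T ^ (5/3 + ε))` by the
fourth moment and Weyl's bound. (2) follows from (1) and Ingham's theorem by partial integration. The approximate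
functional equation, Weyl's bound and Ingham's theorem are taken from the library of the team.
-/

namespace Pool.Agent.Results.MP_39df77_nt.SixthMomentGenericHeights

open MeasureTheory Set Filter Topology

/-- `|ζ(1/2 + iu)|` -/
noncomputable def Z (u : ℝ) : ℝ := ‖riemannZeta (1 / 2 + Complex.I * u)‖

/-- the heights `u_j(t) = y_j(t) + a_j t ^ {θ_j} + b_j t ^ {η_j} / (log t) ^ {m_j}`, `c_j = (a_j, b_j)` -/
noncomputable def height {k : ℕ} (θ η : Fin k → ℝ) (m : Fin k → ℕ) (y : Fin k → ℝ → ℝ) (c : Fin k → ℝ × ℝ)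
    (j : Fin k) (t : ℝ) : ℝ :=
  y j t + (c j).1 * t ^ θ j + (c j).2 * (t ^ η j / Real.log t ^ m j)

/-- `log(u / 2π) + 2γ` -/
noncomputable def main (u : ℝ) : ℝ := Real.log (u / (2 * Real.pi)) + 2 * Real.eulerMascheroniConstant

/-- **a fourth power at `t`, squares at generic heights** -/
theorem result {k : ℕ} (θ η D : Fin k → ℝ) (m : Fin k → ℕ) (hη : ∀ j, 0 < η j) (hηθ : ∀ j, η j ≤ θ j)
    (hm : ∀ j, η j < θ j ∨ 1 ≤ m j) (hD : ∀ j, θ j ≤ D j)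
    (y : Fin k → ℝ → ℝ) (hym : ∀ j, Measurable (y j)) (Y : ℝ)
    (hy : ∀ j t, 2 ≤ t → 0 ≤ y j t ∧ y j t ≤ Y * t ^ D j) (c0 : ℝ) (hc0 : 0 < c0)
    (hlow : ∀ j t, 2 ≤ t → c0 * t ^ D j ≤ y j t + t ^ θ j)
    (e : ℝ) (he1 : e ≤ 1) (he : ∀ j, e ≤ η j) (hδ : ∑ j, (D j - θ j) + (1 - e) < 1 / 3) :
    ∀ᵐ c : Fin k → ℝ × ℝ, (∀ j, 0 < (c j).1) →
      -- (1)
      (∃ T0 : ℝ, 2 ≤ T0 ∧
        (∀ T : ℝ, T0 ≤ T → IntervalIntegrable (fun t => Z t ^ 4 *
          (∏ j, Z (height θ η m y c j t) ^ 2 - ∏ j, main (height θ η m y c j t))) volume T0 T) ∧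
        ∀ ε : ℝ, 0 < ε → ∃ K : ℝ, ∀ T : ℝ, T0 ≤ T →
          |∫ t in T0..T, Z t ^ 4 * (∏ j, Z (height θ η m y c j t) ^ 2 - ∏ j, main (height θ η m y c j t))| ≤
            K * T ^ (5 / 6 + (∑ j, (D j - θ j) + (1 - e)) / 2 + ε)) ∧
      -- (2)
      (∀ T : ℝ, 2 ≤ T → IntervalIntegrable (fun t => Z t ^ 4 * ∏ j, Z (height θ η m y c j t) ^ 2) volume 2 T) ∧
      Tendsto (fun T : ℝ => (∫ t in (2:ℝ)..T, Z t ^ 4 * ∏ j, Z (height θ η m y c j t) ^ 2) /
        (T * Real.log T ^ (4 + k))) atTop (𝓝 ((∏ j, D j) / (2 * Real.pi ^ 2))) := by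
  filter_upwards [Pool.Agent.H471.ZP.six θ η D m hη hηθ hm hD y hym Y hy c0 hc0 hlow e he1 he hδ] with c hc hj
  obtain ⟨⟨T0, hT0, h1, h2⟩, h3, h4⟩ := hc hj
  refine ⟨⟨T0, hT0, h1, fun ε hε => ?_⟩, h3, h4⟩
  obtain ⟨K, hK⟩ := h2 ε hε
  refine ⟨K, fun T hT => ?_⟩
  have h5 := hK T hT
  have e1 : (∑ j, (D j - θ j) + 1 - e + 5 / 3) / 2 + ε = 5 / 6 + (∑ j, (D j - θ j) + (1 - e)) / 2 + ε := by ring
  rw [e1] at h5
  exact h5

end Pool.Agent.Results.MP_39df77_nt.SixthMomentGenericHeights
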